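import Pool.Agent.Y471.EN.Seq
import Pool.Agent.Results.MP_1f5025_nt.NoEnergyThreshold

/-!
# Q2 of MP_1f5025_nt: one sequence, full Hausdorff dimension

The definitions `HasPPC` and `energy` are those of the starting file `NoEnergyThreshold`.
-/

set_option autoImplicit false

namespace Pool.Agent.Results.MP_1f5025_nt.FullDimension

open Filter Topology Pool.Agent.Results.MP_1f5025_nt.NoEnergyThreshold

/-- For every `ψ` tending to infinity there is ONE strictly increasing sequence of positive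
integers with additive energy at least `N ^ 3 / ψ N` for all large `N` such that the set of the
real numbers `α` for which `{a n * α}` has Poissonian pair correlations has Hausdorff dimension
one in every open interval. (Second part, the starting theorem: the sequence can also be chosen
for any single prescribed irrational `α`.) -/
theorem result (ψ : ℕ → ℝ) (hψ : Tendsto ψ atTop atTop) :
    (∃ a : ℕ → ℕ, StrictMono a ∧ (∀ n, 1 ≤ n → 0 < a n) ∧
      (∃ N₀ : ℕ, ∀ N : ℕ, N₀ ≤ N → (N : ℝ) ^ 3 / ψ N ≤ energy a N) ∧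
      ∀ u v : ℝ, u < v →
        dimH {α : ℝ | α ∈ Set.Ioo u v ∧ HasPPC (fun n => Int.fract ((a n : ℝ) * α))} = 1) ∧
    ∀ α : ℝ, Irrational α →
      ∃ a : ℕ → ℕ, StrictMono a ∧ (∀ n, 1 ≤ n → 0 < a n) ∧
        (∃ N₀ : ℕ, ∀ N : ℕ, N₀ ≤ N → (N : ℝ) ^ 3 / ψ N ≤ energy a N) ∧
        HasPPC (fun n => Int.fract ((a n : ℝ) * α)) := by
  refine ⟨?_, fun α hα => Pool.Agent.Results.MP_1f5025_nt.NoEnergyThreshold.result ψ hψ α hα⟩
  obtain ⟨a, h1, h2, ⟨N₀, h3⟩, w, h4⟩ := Pool.Agent.Y471.EN.mainE ψ hψ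
  refine ⟨shift a, shift_strictMono a h1 (h2 0), ?_, ⟨N₀, fun N hN => ?_⟩, ?_⟩
  · intro n hn
    obtain ⟨m, rfl⟩ := Nat.exists_eq_add_of_le' hn
    rw [shift_succ]
    exact h2 m
  · rw [← energy_shift]
    exact h3 N hN
  · intro u v huv
    apply le_antisymm
    · refine (dimH_mono (Set.subset_univ _)).trans (le_of_eq ?_)
      rw [Real.dimH_univ]
    · refine (Pool.Agent.Y471.PPC.dim_interval w u v huv).trans (dimH_mono ?_)
      rintro α ⟨h5, h6⟩
      exact ⟨h6, hasPPC_shift a α (h4 α h5)⟩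

end Pool.Agent.Results.MP_1f5025_nt.FullDimension
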